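import Mathlib
import Pool.Agent.H196R3.ParryB

/-!
# Powers of Perron numbers with infinitely many Parry powers
-/

set_option autoImplicit false

open Polynomial

namespace Pool.Agent.R329.Par

open Pool.Agent.H196R3.Parry

/-- the conjugates of `β ^ k` are `k`-th powers of conjugates of `β` -/
lemma conj_pow {β : ℝ} (hint : IsIntegral ℤ β) {k : ℕ} {z : ℂ}
    (hz : aeval z (minpoly ℤ (β ^ k)) = 0) : ∃ w : ℂ, aeval w (minpoly ℤ β) = 0 ∧ w ^ k = z := by
  have hintk : IsIntegral ℤ (β ^ k) := hint.pow k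
  have hmem : ∀ (b : ℝ), IsIntegral ℤ b → ∀ z : ℂ, aeval z (minpoly ℤ b) = 0 →
      z ∈ algebraicClosure ℚ ℂ := by
    intro b hb z hz
    rw [mem_algebraicClosure_iff]
    refine ⟨(minpoly ℤ b).map (algebraMap ℤ ℚ), ?_, ?_⟩
    · exact ((minpoly.monic hb).map _).ne_zero
    · rw [aeval_map_algebraMap, hz]
  set b : algebraicClosure ℚ ℂ := ⟨(β : ℂ), hmem β hint _ aeval_self⟩ with hb
  set z' : algebraicClosure ℚ ℂ := ⟨z, hmem _ hintk _ hz⟩ with hz'
  have hinj : Function.Injective (algebraMap (algebraicClosure ℚ ℂ) ℂ) :=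
    (algebraMap (algebraicClosure ℚ ℂ) ℂ).injective
  have hconj : IsConjRoot ℚ (b ^ k) z' := by
    unfold IsConjRoot
    rw [← minpoly.algebraMap_eq hinj, ← minpoly.algebraMap_eq hinj]
    have h1 : algebraMap (algebraicClosure ℚ ℂ) ℂ (b ^ k) = ((β ^ k : ℝ) : ℂ) := by
      rw [map_pow]
      push_cast
      rfl
    rw [h1]
    exact (minpoly_conj hintk aeval_self).trans (minpoly_conj hintk hz).symm
  have hac : IsAlgClosure ℚ (algebraicClosure ℚ ℂ) := algebraicClosure.isAlgClosure ℚ ℂ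
  have hnor : Normal ℚ (algebraicClosure ℚ ℂ) := IsAlgClosure.normal ℚ _
  obtain ⟨σ, hσ⟩ := hconj.symm.exists_algEquiv
  refine ⟨((σ b : algebraicClosure ℚ ℂ) : ℂ), ?_, ?_⟩
  · have h4 : aeval b (minpoly ℤ β) = 0 := by
      apply hinj
      rw [map_zero, ← aeval_algebraMap_apply]
      exact aeval_self
    have h5 : aeval (σ b) (minpoly ℤ β) = 0 := by
      have h6 : aeval (σ b) (minpoly ℤ β) = σ (aeval b (minpoly ℤ β)) := by
        exact (aeval_algHom_apply (σ.toAlgHom.restrictScalars ℤ) b (minpoly ℤ β))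
      rw [h6, h4, map_zero]
    have h7 : aeval (algebraMap (algebraicClosure ℚ ℂ) ℂ (σ b)) (minpoly ℤ β) = 0 := by
      rw [aeval_algebraMap_apply, h5, map_zero]
    exact h7
  · have h1 : (σ b) ^ k = z' := by
      rw [← map_pow, hσ]
    exact congrArg Subtype.val h1

/-- `β > 1` is an algebraic integer whose other conjugates have modulus less than `β`. -/
def IsPerron (β : ℝ) : Prop :=
  1 < β ∧ IsIntegral ℤ β ∧ ∀ z : ℂ, aeval z (minpoly ℤ β) = 0 → z ≠ (β : ℂ) → ‖z‖ < β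

/-- The set of the `k ≥ 1` such that `β ^ k` is a Parry number, that is, the orbit of `1` under
`x ↦ fract (β ^ k * x)` is finite. -/
def parryPowers (β : ℝ) : Set ℕ :=
  {k : ℕ | 1 ≤ k ∧ (Set.range fun i : ℕ => (fun x : ℝ => Int.fract (β ^ k * x))^[i] 1).Finite}

/-- what is known for the powers of a Perron number with infinitely many Parry powers -/
theorem pow_facts {β : ℝ} (h : IsPerron β) (hinf : ¬ (parryPowers β).Finite) {k : ℕ} (hk : 1 ≤ k) :
    1 < β ^ k ∧ IsIntegral ℤ (β ^ k) ∧ Irreducible (minpoly ℤ (β ^ k)) ∧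
    ((minpoly ℤ (β ^ k)).map (Int.castRingHom ℂ)).mahlerMeasure = β ^ k ∧
    (∀ x y : ℂ, aeval x (minpoly ℤ (β ^ k)) = 0 → aeval y (minpoly ℤ (β ^ k)) = 0 → x ≠ y →
      ∀ m : ℕ, 0 < m → x ^ m ≠ y ^ m) := by
  obtain ⟨hβ, hint, hperron⟩ := h
  have hone : ∀ z : ℂ, aeval z (minpoly ℤ β) = 0 → z ≠ (β : ℂ) → ‖z‖ ≤ 1 :=
    fun z hz hne => conj_le_one hβ hint hperron hinf hz hne
  have hB : 1 < β ^ k := one_lt_pow₀ hβ (by omega)
  have hBint : IsIntegral ℤ (β ^ k) := hint.pow k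
  have honek : ∀ z : ℂ, aeval z (minpoly ℤ (β ^ k)) = 0 → z ≠ ((β ^ k : ℝ) : ℂ) → ‖z‖ ≤ 1 := by
    intro z hz hne
    obtain ⟨w, hw, rfl⟩ := conj_pow hint hz
    have hwne : w ≠ (β : ℂ) := by
      rintro rfl
      apply hne
      push_cast
      rfl
    rw [norm_pow]
    exact pow_le_one₀ (norm_nonneg _) (hone w hw hwne)
  refine ⟨hB, hBint, minpoly.irreducible hBint, mahler_eq hB hBint honek, ?_⟩
  intro x y hx hy hxy m hm
  exact torsion_free hB hBint (fun z hz hne => (honek z hz hne).trans_lt hB) hx hy hxy hm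

end Pool.Agent.R329.Par
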